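import Pool.Agent.W330.Branch

set_option autoImplicit false

namespace Pool.Agent.W330.Branch

open List

/-- The second letter of the translation. -/
def tt (g : Equiv.Perm W) : Bool := (g [false, false]).getD 1 false

/-- The first letter of the translation. -/
def ss (g : Equiv.Perm W) : Bool := (g [false, false]).getD 0 false

lemma IsL.apply2 {g : Equiv.Perm W} (hg : IsL g) (a b : Bool) :
    g [a, b] = [xor a (ss g), xor b (tt g)] := by
  obtain ⟨s, t, h⟩ := hg.tr
  rw [h, ss, tt, h]
  simp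

lemma IsL.apply1 {g : Equiv.Perm W} (hg : IsL g) (a : Bool) : g [a] = [xor a (ss g)] := by
  have h1 : g [a] <+: g [a, false] := (hg.pre _ _).1 (by simp)
  rw [hg.apply2, List.prefix_iff_eq_take, hg.len] at h1
  simpa using h1

lemma IsL.apply0 {g : Equiv.Perm W} (hg : IsL g) : g [] = [] := by
  have := hg.len []
  simpa using this

lemma IsL.apply3 {g : Equiv.Perm W} (hg : IsL g) (a b : Bool) (w : W) :
    ∃ z : W, g (a :: b :: w) = xor a (ss g) :: xor b (tt g) :: z := by
  have h1 : g [a, b] <+: g (a :: b :: w) := (hg.pre _ _).1 ⟨w, rfl⟩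
  rw [hg.apply2] at h1
  obtain ⟨z, hz⟩ := h1
  exact ⟨z, hz.symm⟩

/-- Conjugation by the swap of the first two letters. -/
def psi (g : Equiv.Perm W) : W → W
  | [] => []
  | [a] => [xor a (tt g)]
  | a :: b :: w => sw (g (b :: a :: w))

lemma psi_len {g : Equiv.Perm W} (hg : IsL g) (w : W) : (psi g w).length = w.length := by
  match w with
  | [] => rfl
  | [_] => rfl
  | _ :: _ :: _ => rw [psi, length_sw, hg.len]; rfl

lemma psi_mul {g h : Equiv.Perm W} (hg : IsL g) (hh : IsL h) (w : W) :
    psi (g * h) w = psi g (psi h w) := by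
  match w with
  | [] => rfl
  | [a] =>
    simp only [psi]
    have : tt (g * h) = xor (tt h) (tt g) := by
      rw [tt, Equiv.Perm.mul_apply, hh.apply2, hg.apply2]
      simp
    rw [this]
    simp
  | a :: b :: w =>
    rw [psi, psi, Equiv.Perm.mul_apply]
    obtain ⟨z, hz⟩ := hh.apply3 b a w
    rw [hz]
    rfl

lemma psi_one (w : W) : psi 1 w = w := by
  match w with
  | [] => rfl
  | [a] => simp [psi, tt]
  | a :: b :: w => rfl

/-- The permutation `psi g`. -/
def psiE {g : Equiv.Perm W} (hg : IsL g) : Equiv.Perm W where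
  toFun := psi g
  invFun := psi g⁻¹
  left_inv w := by rw [← psi_mul hg.inv hg]; simp [psi_one]
  right_inv w := by rw [← psi_mul hg hg.inv]; simp [psi_one]

lemma sw_pre {v w : W} (hv : 2 ≤ v.length) (h : v <+: w) : sw v <+: sw w := by
  obtain ⟨z, rfl⟩ := h
  match v, hv with
  | a :: b :: v, _ => exact ⟨z, rfl⟩

lemma psi_pre {g : Equiv.Perm W} (hg : IsL g) {v w : W} (h : v <+: w) :
    psi g v <+: psi g w := by
  match v with
  | [] => exact List.nil_prefix
  | [a] =>
    obtain ⟨z, rfl⟩ := h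
    match z with
    | [] => simp
    | b :: z =>
      obtain ⟨y, hy⟩ := hg.apply3 b a z
      show [xor a (tt g)] <+: sw (g (b :: a :: z))
      rw [hy]
      simp [sw]
  | a :: b :: v =>
    obtain ⟨z, rfl⟩ := h
    show sw (g (b :: a :: v)) <+: sw (g (b :: a :: (v ++ z)))
    apply sw_pre
    · rw [hg.len]; simp
    · exact (hg.pre _ _).1 ⟨z, rfl⟩

lemma psiE_mem {g : Equiv.Perm W} (hg : IsL g) : IsL (psiE hg) := by
  refine ⟨fun v w => ⟨psi_pre hg, fun h => ?_⟩, psi_len hg, tt g, ss g, fun a b => ?_⟩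
  · have h1 : psi g v <+: psi g w := h
    have h2 := psi_pre hg.inv h1
    rw [← psi_mul hg.inv hg, ← psi_mul hg.inv hg] at h2
    simpa [psi_one] using h2
  · show sw (g [b, a]) = _
    rw [hg.apply2]
    rfl

lemma psi_psi {g : Equiv.Perm W} (hg : IsL g) (w : W) : psi (psiE hg) w = g w := by
  match w with
  | [] => rw [hg.apply0]; rfl
  | [a] =>
    rw [hg.apply1]
    show [xor a (tt (psiE hg))] = _
    have : tt (psiE hg) = ss g := by
      show (sw (g [false, false])).getD 1 false = _
      rw [hg.apply2]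
      simp [sw]
    rw [this]
  | a :: b :: w =>
    show sw (sw (g (a :: b :: w))) = _
    rw [sw_sw]

/-- The automorphism. -/
def phi : LB ≃* LB where
  toFun g := ⟨psiE g.2, psiE_mem g.2⟩
  invFun g := ⟨psiE g.2, psiE_mem g.2⟩
  left_inv g := by
    apply Subtype.ext
    ext1 w
    exact psi_psi g.2 w
  right_inv g := by
    apply Subtype.ext
    ext1 w
    exact psi_psi g.2 w
  map_mul' a b := by
    apply Subtype.ext
    ext1 w
    exact psi_mul a.2 b.2 w

/-- An element of `LB` which fixes only the root. -/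
def g0 : LB := ⟨T (fun i => decide (i = 0)), T_mem _⟩

lemma g0_apply (w : W) (h : (g0 : Equiv.Perm W) w = w) : w = [] := by
  match w with
  | [] => rfl
  | a :: w =>
    exfalso
    have h1 : trl (fun i => decide (i = 0)) (a :: w) = a :: w := h
    simp [trl, List.mapIdx_cons] at h1

lemma phi_g0 : ((phi g0 : LB) : Equiv.Perm W) [false] = [false] := by
  show [xor false (tt _)] = [false]
  simp [tt, g0, T, trl]

/-- No tree automorphism induces `phi`. -/
lemma no_sigma (σ : Equiv.Perm W) (h1 : ∀ v w : W, v <+: w ↔ σ v <+: σ w)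
    (h2 : ∀ g : LB, ((phi g : LB) : Equiv.Perm W) = σ * (g : Equiv.Perm W) * σ⁻¹) : False := by
  have h3 := phi_g0
  rw [h2, Equiv.Perm.mul_apply, Equiv.Perm.mul_apply] at h3
  have h4 : (g0 : Equiv.Perm W) (σ⁻¹ [false]) = σ⁻¹ [false] := by
    rw [Equiv.Perm.eq_inv_iff_eq]
    exact h3
  have h5 := g0_apply _ h4
  have h6 : σ [] = [false] := (Equiv.Perm.inv_eq_iff_eq.1 h5).symm
  have h7 : σ [] <+: σ (σ⁻¹ []) := (h1 _ _).1 List.nil_prefix
  rw [h6] at h7
  simp at h7

end Pool.Agent.W330.Branch
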