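import Mathlib

set_option autoImplicit false

/-!
A branch group on the binary tree with an automorphism which is not induced by a tree automorphism.
-/

namespace Pool.Agent.W330.Branch

open List

/-- Words. -/
abbrev W := List Bool

/-- Swap of the first two letters. -/
def sw : W → W
  | a :: b :: w => b :: a :: w
  | l => l

lemma sw_sw (w : W) : sw (sw w) = w := by
  match w with
  | [] => rfl
  | [_] => rfl
  | _ :: _ :: _ => rfl

lemma length_sw (w : W) : (sw w).length = w.length := by
  match w with
  | [] => rfl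
  | [_] => rfl
  | _ :: _ :: _ => rfl

/-- Tree automorphisms acting on the second level by translations. -/
structure IsL (g : Equiv.Perm W) : Prop where
  pre : ∀ v w : W, v <+: w ↔ g v <+: g w
  len : ∀ v : W, (g v).length = v.length
  tr : ∃ s t : Bool, ∀ a b : Bool, g [a, b] = [xor a s, xor b t]

lemma IsL.one : IsL 1 := ⟨fun _ _ => Iff.rfl, fun _ => rfl, false, false, by simp⟩

lemma IsL.mul {g h : Equiv.Perm W} (hg : IsL g) (hh : IsL h) : IsL (g * h) := by
  refine ⟨fun v w => (hh.pre v w).trans (hg.pre _ _), fun v => (hg.len _).trans (hh.len _), ?_⟩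
  obtain ⟨s, t, h1⟩ := hg.tr
  obtain ⟨s', t', h2⟩ := hh.tr
  refine ⟨xor s' s, xor t' t, fun a b => ?_⟩
  rw [Equiv.Perm.mul_apply, h2, h1]
  simp

lemma IsL.inv {g : Equiv.Perm W} (hg : IsL g) : IsL g⁻¹ := by
  refine ⟨fun v w => ?_, fun v => ?_, ?_⟩
  · have := hg.pre (g⁻¹ v) (g⁻¹ w)
    simpa using this.symm
  · have := hg.len (g⁻¹ v)
    simpa using this.symm
  · obtain ⟨s, t, h1⟩ := hg.tr
    refine ⟨s, t, fun a b => ?_⟩
    rw [Equiv.Perm.inv_eq_iff_eq, h1]
    simp

/-- The group. -/
def LB : Subgroup (Equiv.Perm W) where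
  carrier := {g | IsL g}
  one_mem' := IsL.one
  mul_mem' := fun a b => IsL.mul a b
  inv_mem' := fun a => IsL.inv a

lemma mem_LB {g : Equiv.Perm W} : g ∈ LB ↔ IsL g := Iff.rfl

/-- letterwise translation -/
def trl (c : ℕ → Bool) (w : W) : W := w.mapIdx (fun i x => xor x (c i))

lemma trl_trl (c : ℕ → Bool) (w : W) : trl c (trl c w) = w := by
  apply List.ext_getElem
  · simp [trl]
  · intro i h1 h2
    simp [trl]

/-- letterwise translation as a permutation -/
def T (c : ℕ → Bool) : Equiv.Perm W where
  toFun := trl c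
  invFun := trl c
  left_inv := trl_trl c
  right_inv := trl_trl c

lemma trl_prefix (c : ℕ → Bool) {v w : W} (h : v <+: w) : trl c v <+: trl c w := by
  rw [List.prefix_iff_getElem] at h ⊢
  obtain ⟨h1, h2⟩ := h
  refine ⟨by simpa [trl] using h1, fun i hi => ?_⟩
  have h3 := h2 i (by simpa [trl] using hi)
  simp [trl, h3]

lemma T_mem (c : ℕ → Bool) : T c ∈ LB := by
  refine ⟨fun v w => ⟨trl_prefix c, fun h => ?_⟩, fun v => by simp [T, trl], c 0, c 1,
    fun a b => by simp [T, trl, List.mapIdx_cons]⟩
  have h' : trl c v <+: trl c w := h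
  have := trl_prefix c h'
  rwa [trl_trl, trl_trl] at this

lemma trans_LB (v w : W) (h : v.length = w.length) : ∃ g ∈ LB, g v = w := by
  refine ⟨T (fun i => xor (v.getD i false) (w.getD i false)), T_mem _, ?_⟩
  show trl _ v = w
  apply List.ext_getElem
  · simpa [trl] using h
  · intro i h1 h2
    have h3 : i < v.length := by omega
    simp [trl, h2, h3]

/-- The level `n` rigid stabiliser. -/
def rist (n : ℕ) : Subgroup (Equiv.Perm W) :=
  Subgroup.closure {g | g ∈ LB ∧ ∃ u : W, u.length = n ∧ ∀ v : W, ¬ u <+: v → g v = v}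

/-- The pointwise stabiliser of level `n`. -/
def Sn (n : ℕ) : Subgroup (Equiv.Perm W) where
  carrier := {g | ∀ v : W, v.length = n → g v = v}
  one_mem' := fun _ _ => rfl
  mul_mem' := fun {a b} ha hb v hv => by
    rw [Equiv.Perm.mul_apply, hb v hv, ha v hv]
  inv_mem' := fun {a} ha v hv => by
    rw [Equiv.Perm.inv_eq_iff_eq, ha v hv]

lemma take_of_mem {n : ℕ} {g : Equiv.Perm W} (hg : IsL g) (h : g ∈ Sn n) {w : W}
    (hw : n ≤ w.length) : (g w).take n = w.take n := by
  have h1 : w.take n <+: w := List.take_prefix n w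
  have h2 := (hg.pre _ _).1 h1
  rw [h (w.take n) (by simpa using hw)] at h2
  rw [List.prefix_iff_eq_take] at h2
  rw [h2]
  simp [hw]

lemma fix_of_mem {n : ℕ} {g : Equiv.Perm W} (hg : IsL g) (h : g ∈ Sn n) {w : W}
    (hw : w.length ≤ n) : g w = w := by
  set w' : W := w ++ List.replicate (n - w.length) false with hw'
  have h1 : w <+: w' := List.prefix_append _ _
  have h2 := (hg.pre _ _).1 h1
  have hl : w'.length = n := by simp [hw']; omega
  rw [h w' hl] at h2
  rw [List.prefix_iff_eq_take] at h1 h2
  rw [h2, hg.len]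
  exact h1.symm

/-- The part of `g` over a finite set of vertices. -/
def part (n : ℕ) (F : Finset W) (g : Equiv.Perm W) (w : W) : W :=
  if w.take n ∈ F then g w else w

lemma part_inv {n : ℕ} (F : Finset W) {g : Equiv.Perm W} (hg : IsL g) (h : g ∈ Sn n) (w : W) :
    part n F g⁻¹ (part n F g w) = w := by
  unfold part
  have key : (g w).take n = w.take n := by
    rcases le_total n w.length with h1 | h1
    · exact take_of_mem hg h h1
    · rw [fix_of_mem hg h h1]
  by_cases hw : w.take n ∈ F
  · rw [if_pos hw, key, if_pos hw]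
    simp
  · rw [if_neg hw, if_neg hw]

/-- The part of `g` over a finite set of vertices, as a permutation. -/
def partE {n : ℕ} (F : Finset W) {g : Equiv.Perm W} (hg : IsL g) (h : g ∈ Sn n) :
    Equiv.Perm W where
  toFun := part n F g
  invFun := part n F g⁻¹
  left_inv := part_inv F hg h
  right_inv := by
    have := part_inv F hg.inv (inv_mem h)
    rwa [inv_inv] at this

lemma part_len (n : ℕ) (F : Finset W) {g : Equiv.Perm W} (hg : IsL g) (w : W) :
    (part n F g w).length = w.length := by
  unfold part
  split_ifs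
  · exact hg.len w
  · rfl

lemma part_take {n : ℕ} (F : Finset W) {g : Equiv.Perm W} (hg : IsL g) (h : g ∈ Sn n) (w : W) :
    (part n F g w).take n = w.take n := by
  unfold part
  split_ifs
  · rcases le_total n w.length with h1 | h1
    · exact take_of_mem hg h h1
    · rw [fix_of_mem hg h h1]
  · rfl

lemma part_short {n : ℕ} (F : Finset W) {g : Equiv.Perm W} (hg : IsL g) (h : g ∈ Sn n) {w : W}
    (hw : w.length ≤ n) : part n F g w = w := by
  unfold part
  split_ifs
  · exact fix_of_mem hg h hw
  · rfl

lemma part_prefix {n : ℕ} (F : Finset W) {g : Equiv.Perm W} (hg : IsL g) (h : g ∈ Sn n)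
    {v w : W} (hvw : v <+: w) : part n F g v <+: part n F g w := by
  have hlen : v.length ≤ w.length := hvw.length_le
  rcases le_total n v.length with h1 | h1
  · have ht : v.take n = w.take n := by
      obtain ⟨z, rfl⟩ := hvw
      rw [List.take_append_of_le_length h1]
    unfold part
    rw [ht]
    split_ifs
    · exact (hg.pre _ _).1 hvw
    · exact hvw
  · rw [part_short F hg h h1]
    have h2 := part_take F hg h w
    have h3 : v = w.take v.length := List.prefix_iff_eq_take.1 hvw
    rw [List.prefix_iff_eq_take]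
    conv_lhs => rw [h3]
    have h4 : w.take v.length = (w.take n).take v.length := by
      rw [List.take_take, min_eq_left h1]
    rw [h4, ← h2, List.take_take, min_eq_left h1]

lemma partE_mem {n : ℕ} (hn : 2 ≤ n) (F : Finset W) {g : Equiv.Perm W} (hg : IsL g)
    (h : g ∈ Sn n) : IsL (partE F hg h) := by
  refine ⟨fun v w => ⟨part_prefix F hg h, fun hh => ?_⟩, part_len n F hg, false, false,
    fun a b => ?_⟩
  · have h1 : part n F g v <+: part n F g w := hh
    have h2 := part_prefix F hg.inv (inv_mem h) h1
    rwa [part_inv F hg h, part_inv F hg h] at h2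
  · show part n F g [a, b] = _
    rw [part_short F hg h (by simpa using hn)]
    simp

lemma partE_rist {n : ℕ} (hn : 2 ≤ n) (F : Finset W) (hF : ∀ u ∈ F, u.length = n)
    {g : Equiv.Perm W} (hg : IsL g) (h : g ∈ Sn n) : partE F hg h ∈ rist n := by
  classical
  induction F using Finset.induction_on with
  | empty =>
    have : partE ∅ hg h = 1 := by
      ext1 w
      show part n ∅ g w = w
      simp [part]
    rw [this]
    exact one_mem _
  | insert u F hu ih =>
    have h1 : partE (insert u F) hg h = partE {u} hg h * partE F hg h := by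
      ext1 w
      show part n (insert u F) g w = part n {u} g (part n F g w)
      have ht := part_take F hg h w
      unfold part at ht ⊢
      rw [ht]
      by_cases hw : w.take n ∈ F
      · have : w.take n ≠ u := fun e => hu (e ▸ hw)
        simp [hw, this]
      · by_cases hw' : w.take n = u
        · simp [hw', hu]
        · simp [hw, hw']
    rw [h1]
    refine mul_mem ?_ (ih fun v hv => hF v (Finset.mem_insert_of_mem hv))
    refine Subgroup.subset_closure ⟨partE_mem hn {u} hg h, u, hF u (Finset.mem_insert_self _ _), ?_⟩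
    intro v hv
    show part n {u} g v = v
    unfold part
    rw [if_neg]
    intro h2
    rw [Finset.mem_singleton] at h2
    exact hv (h2 ▸ List.take_prefix n v)

/-- All words of length `n`. -/
def allWords (n : ℕ) : Finset W := (Finset.univ : Finset (List.Vector Bool n)).image (fun v => v.1)

lemma mem_allWords {n : ℕ} {w : W} : w ∈ allWords n ↔ w.length = n := by
  unfold allWords
  rw [Finset.mem_image]
  constructor
  · rintro ⟨v, _, rfl⟩
    exact v.2
  · intro h
    exact ⟨⟨w, h⟩, Finset.mem_univ _, rfl⟩

lemma Sn_le {n : ℕ} (hn : 2 ≤ n) {g : Equiv.Perm W} (hg : IsL g) (h : g ∈ Sn n) : g ∈ rist n := by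
  have h1 := partE_rist hn (allWords n) (fun u hu => mem_allWords.1 hu) hg h
  have h2 : partE (allWords n) hg h = g := by
    ext1 w
    show part n (allWords n) g w = g w
    unfold part
    rcases le_total n w.length with h3 | h3
    · rw [if_pos (mem_allWords.2 (by simpa using h3))]
    · rw [fix_of_mem hg h h3]
      split_ifs <;> rfl
  rwa [h2] at h1

/-- The action of `LB` on level `n`. -/
def levelHom (n : ℕ) : LB →* Equiv.Perm (List.Vector Bool n) where
  toFun g :=
    { toFun := fun v => ⟨(g : Equiv.Perm W) v.1, by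
        rw [(mem_LB.1 g.2).len]; exact v.2⟩
      invFun := fun v => ⟨(g : Equiv.Perm W)⁻¹ v.1, by
        rw [(mem_LB.1 g.2).inv.len]; exact v.2⟩
      left_inv := fun v => Subtype.ext (by simp)
      right_inv := fun v => Subtype.ext (by simp) }
  map_one' := by ext1 v; rfl
  map_mul' a b := by ext1 v; rfl

lemma mem_ker {n : ℕ} {g : LB} (h : g ∈ (levelHom n).ker) : (g : Equiv.Perm W) ∈ Sn n := by
  intro v hv
  have h1 : levelHom n g = 1 := h
  have h2 := congrArg (fun f : Equiv.Perm (List.Vector Bool n) => (f ⟨v, hv⟩).1) h1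
  exact h2

lemma index_ge {n : ℕ} (hn : 2 ≤ n) : ((rist n).subgroupOf LB).FiniteIndex := by
  have h1 : (levelHom n).ker ≤ (rist n).subgroupOf LB := by
    intro g hg
    rw [Subgroup.mem_subgroupOf]
    exact Sn_le hn g.2 (mem_ker hg)
  have h2 : (levelHom n).ker.FiniteIndex := Subgroup.finiteIndex_ker _
  exact Subgroup.finiteIndex_of_le h1

lemma rist_anti {m n : ℕ} (h : m ≤ n) : rist n ≤ rist m := by
  refine Subgroup.closure_mono ?_
  rintro g ⟨hg, u, hu, h1⟩
  refine ⟨hg, u.take m, by simp; omega, fun v hv => h1 v fun h2 => hv ?_⟩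
  exact (List.take_prefix m u).trans h2

lemma index_ne (n : ℕ) : ((rist n).subgroupOf LB).index ≠ 0 := by
  have h1 : ((rist (max n 2)).subgroupOf LB).FiniteIndex := index_ge (le_max_right _ _)
  have h2 : (rist (max n 2)).subgroupOf LB ≤ (rist n).subgroupOf LB :=
    Subgroup.comap_mono (rist_anti (le_max_left _ _))
  have h3 := Subgroup.finiteIndex_of_le h2
  exact h3.index_ne_zero

end Pool.Agent.W330.Branch
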